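import Pool.Agent.helper19.MX.SpecA

/-!
# Project mx (MP_a875de_ag), row GAS: the operation A for a space
-/

namespace MX

open Pool.Agent.helper53.AU AN
open scoped Classical Topology

/-- the new form -/
noncomputable def GAS_F {L : Type} [Field L] (m v : L) : ℕ → L :=
  fun i => if i = 0 then v ^ 2 * (m + m ^ 4) else if i = 1 then v ^ 3 else 0

/-- the new levels -/
noncomputable def GAS_lev (r : ℕ) (lev : Finset ℕ → ℕ) (T : Finset ℕ) : ℕ :=
  if r ∈ T then (if T.erase r = ∅ then 1 else lev (T.erase r)) else lev T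

theorem GAS_sum_not {L : Type} [Field L] (A : ℕ → ℕ → L) (r : ℕ) (F : ℕ → L) (T : Finset ℕ) (hT : r ∉ T) :
    sumT (Function.update A r F) T = sumT A T := by
  funext i
  unfold sumT
  refine Finset.sum_congr rfl fun j hj => ?_
  have : j ≠ r := by
    rintro rfl
    exact hT hj
  rw [Function.update_of_ne this]

theorem GAS_sum_mem {L : Type} [Field L] (A : ℕ → ℕ → L) (r : ℕ) (F : ℕ → L) (T : Finset ℕ) (hT : r ∈ T) :
    sumT (Function.update A r F) T = fun i => sumT A (T.erase r) i + F i := by
  funext i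
  have h := congrFun (GAS_sum_not A r F (T.erase r) (Finset.notMem_erase r T)) i
  unfold sumT at h ⊢
  rw [← h, ← Finset.sum_erase_add T _ hT, Function.update_self]

theorem GAS_GG (r : ℕ) (lev : Finset ℕ → ℕ) : GG (r + 1) (GAS_lev r lev) = 2 * GG r lev + 1 := by
  unfold GG
  set f : Finset ℕ → ℕ := fun T => 2 ^ (GAS_lev r lev T - 1) with hf
  have e0 : f ∅ + ∑ T ∈ (Finset.range (r + 1)).powerset.erase ∅, f T =
      ∑ T ∈ (Finset.range (r + 1)).powerset, f T :=
    Finset.add_sum_erase _ f (Finset.empty_mem_powerset _)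
  have e1 : ∑ T ∈ (Finset.range (r + 1)).powerset, f T =
      ∑ T ∈ (Finset.range r).powerset, f T + ∑ T ∈ (Finset.range r).powerset, f (insert r T) := by
    rw [Finset.range_add_one]
    exact Finset.sum_powerset_insert Finset.notMem_range_self f
  have e2 : ∑ T ∈ (Finset.range r).powerset, f T =
      f ∅ + ∑ T ∈ (Finset.range r).powerset.erase ∅, f T :=
    (Finset.add_sum_erase _ f (Finset.empty_mem_powerset _)).symm
  have e3 : ∑ T ∈ (Finset.range r).powerset, f (insert r T) =
      f (insert r ∅) + ∑ T ∈ (Finset.range r).powerset.erase ∅, f (insert r T) :=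
    (Finset.add_sum_erase _ (fun T => f (insert r T)) (Finset.empty_mem_powerset _)).symm
  have hnr : ∀ T ∈ (Finset.range r).powerset.erase ∅, r ∉ T ∧ T ≠ ∅ := by
    intro T hT
    rw [Finset.mem_erase, Finset.mem_powerset] at hT
    exact ⟨fun h => Finset.notMem_range_self (hT.2 h), hT.1⟩
  have e4 : ∑ T ∈ (Finset.range r).powerset.erase ∅, f T =
      ∑ T ∈ (Finset.range r).powerset.erase ∅, 2 ^ (lev T - 1) := by
    refine Finset.sum_congr rfl fun T hT => ?_
    rw [hf]
    simp only
    unfold GAS_lev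
    rw [if_neg (hnr T hT).1]
  have e5 : ∑ T ∈ (Finset.range r).powerset.erase ∅, f (insert r T) =
      ∑ T ∈ (Finset.range r).powerset.erase ∅, 2 ^ (lev T - 1) := by
    refine Finset.sum_congr rfl fun T hT => ?_
    rw [hf]
    simp only
    unfold GAS_lev
    rw [if_pos (Finset.mem_insert_self r T), Finset.erase_insert (hnr T hT).1, if_neg (hnr T hT).2]
  have e6 : f (insert r ∅) = 1 := by
    rw [hf]
    simp only
    unfold GAS_lev
    rw [if_pos (Finset.mem_insert_self r ∅), Finset.erase_insert (Finset.notMem_empty r), if_pos rfl]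
    rfl
  rw [e1, e2, e3, e4, e5, e6] at e0
  have e7 : ∑ T ∈ (Finset.range (r + 1)).powerset.erase ∅, f T =
      2 * ∑ T ∈ (Finset.range r).powerset.erase ∅, 2 ^ (lev T - 1) + 1 := by
    generalize ∑ T ∈ (Finset.range (r + 1)).powerset.erase ∅, f T = a at *
    generalize ∑ T ∈ (Finset.range r).powerset.erase ∅, 2 ^ (lev T - 1) = b at *
    generalize f ∅ = c at *
    omega
  exact e7

theorem GAS (hCNG : CNG_stmt) (hGNA : GNA_stmt) (hGNB : GNB_stmt) : GAS_stmt := by
  intro L _ _ _ _ _ hH hne θ m hθ r A lev hG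
  have hev : ∀ᶠ v in 𝓝 (0 : L), ∀ T ∈ (Finset.range r).powerset, T ≠ ∅ →
      Lev (lev T) (fun i => sumT A T i + GAS_F m v i) ∧
      Cert L θ (lev T) (bb (lev T) (fun i => sumT A T i + GAS_F m v i)) := by
    rw [Filter.eventually_all_finset]
    intro T hT
    rw [Finset.mem_powerset] at hT
    by_cases hT0 : T = ∅
    · exact Filter.Eventually.of_forall fun v h => absurd hT0 h
    · have hc := hG.cert T hT hT0
      filter_upwards [hGNA L hH θ m (lev T) (sumT A T) (hCNG L θ _ _ hc).1 (hG.level T hT hT0) hc]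
        with v hv _
      exact hv
  have hev1 : ∀ᶠ v in 𝓝[≠] (0 : L), ∀ T ∈ (Finset.range r).powerset, T ≠ ∅ →
      Lev (lev T) (fun i => sumT A T i + GAS_F m v i) ∧
      Cert L θ (lev T) (bb (lev T) (fun i => sumT A T i + GAS_F m v i)) :=
    hev.filter_mono nhdsWithin_le_nhds
  have hev2 : ∀ᶠ v in 𝓝[≠] (0 : L), v ≠ 0 := eventually_mem_nhdsWithin
  have := hne
  obtain ⟨v, hv1, hv2⟩ := (hev1.and hev2).exists
  have hv0 : v ≠ 0 := hv2
  have hB := hGNB L θ m v hθ hv0
  have key : ∀ T ⊆ Finset.range (r + 1), T ≠ ∅ →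
      Lev (GAS_lev r lev T) (sumT (Function.update A r (GAS_F m v)) T) ∧
      Cert L θ (GAS_lev r lev T) (bb (GAS_lev r lev T) (sumT (Function.update A r (GAS_F m v)) T)) := by
    intro T hT hT0
    by_cases hr : r ∈ T
    · rw [GAS_sum_mem A r _ T hr]
      by_cases he : T.erase r = ∅
      · have e1 : GAS_lev r lev T = 1 := by
          unfold GAS_lev
          rw [if_pos hr, if_pos he]
        have e2 : (fun i => sumT A (T.erase r) i + GAS_F m v i) = GAS_F m v := by
          funext i
          rw [he]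
          unfold sumT
          rw [Finset.sum_empty, zero_add]
        rw [e1, e2]
        exact hB
      · have e1 : GAS_lev r lev T = lev (T.erase r) := by
          unfold GAS_lev
          rw [if_pos hr, if_neg he]
        rw [e1]
        refine hv1 (T.erase r) ?_ he
        rw [Finset.mem_powerset]
        intro j hj
        have h1 := Finset.mem_range.1 (hT (Finset.mem_of_mem_erase hj))
        have h2 := Finset.ne_of_mem_erase hj
        exact Finset.mem_range.2 (by omega)
    · have e1 : GAS_lev r lev T = lev T := by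
        unfold GAS_lev
        rw [if_neg hr]
      have hTr : T ⊆ Finset.range r := by
        intro j hj
        have h1 := Finset.mem_range.1 (hT hj)
        have h2 : j ≠ r := by
          rintro rfl
          exact hr hj
        exact Finset.mem_range.2 (by omega)
      rw [e1, GAS_sum_not A r _ T hr]
      exact ⟨hG.level T hTr hT0, hG.cert T hTr hT0⟩
  exact ⟨Function.update A r (GAS_F m v), GAS_lev r lev,
    ⟨fun T hT hT0 => (key T hT hT0).1, fun T hT hT0 => (key T hT hT0).2⟩, GAS_GG r lev⟩

end MX
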