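import Pool.Agent.helper19.MX.SpecD

/-!
# Project mx (MP_a875de_ag), row MAI: the theorem
-/

namespace MX

open Pool.Agent.helper53.AU AN
open scoped Classical Topology

theorem MAI (hLFI : LFI_stmt) (hSPE : SPE_stmt) (hCUR : CUR_stmt) : MAI_stmt := by
  intro G
  induction G with
  | zero =>
    obtain ⟨r, A, lev, hG, hg⟩ := hLFI 0
    obtain ⟨n₀, hn⟩ := hSPE r A lev hG
    refine ⟨n₀, fun n hn0 K _ _ hK g hg0 => ?_⟩
    obtain ⟨A', hA'⟩ := hn n hn0 K hK
    have h := hCUR K n hK r A' lev hA'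
    have e : g = GG r lev := by omega
    rw [e]
    exact h
  | succ G ih =>
    obtain ⟨n₁, hn1⟩ := ih
    obtain ⟨r, A, lev, hG, hg⟩ := hLFI (G + 1)
    obtain ⟨n₀, hn⟩ := hSPE r A lev hG
    refine ⟨max n₀ n₁, fun n hn0 K _ _ hK g hg0 => ?_⟩
    by_cases h1 : g ≤ G
    · exact hn1 n (le_trans (le_max_right _ _) hn0) K hK g h1
    · obtain ⟨A', hA'⟩ := hn n (le_trans (le_max_left _ _) hn0) K hK
      have h := hCUR K n hK r A' lev hA'
      have e : g = GG r lev := by omega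
      rw [e]
      exact h

end MX
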